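import Pool.Agent.COSB.StmtsA

set_option autoImplicit false

/-!
# Squad COSB (MP_0fc649_lc), row ONE (= ONG): the theorem for `F_2` with a parity predicate, from
part 1 with `k = 1`
-/

namespace Pool.Agent.COSB.H50

open Turing Computability Pool.Agent.UT.Num Pool.Agent.H2XG Pool.Agent.PAR Pool.Agent.COS

theorem bit_zmod : ∀ z : ZMod 2, z.val.testBit 0 = decide (z = 1) := by decide

theorem enc_one {n : ℕ} (A : Matrix (Fin n) (Fin n) (ZMod 2)) :
    enc2 (n := n) 1 (show Matrix (Fin n) (Fin n) (ZMod (2 ^ 1)) from A) = enc A := by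
  unfold enc2 enc
  refine List.ext_getElem (by simp) ?_
  intro t h1 h2
  rw [List.getElem_ofFn, List.getElem_ofFn]
  have ht : t < n * n := by simpa using h2
  have e1 : (Fin.divNat (m := n * n) (n := 1) ⟨t, by simpa using h1⟩) = (⟨t, ht⟩ : Fin (n * n)) := by
    apply Fin.ext
    simp [Fin.divNat]
  have e2 : ((Fin.modNat (m := n * n) (n := 1) ⟨t, by simpa using h1⟩ : Fin 1) : ℕ) = 0 := by
    simp [Fin.modNat, Nat.mod_one]
  show (ZMod.val (n := 2) (A (Fin.divNat (Fin.divNat (m := n * n) (n := 1) ⟨t, _⟩))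
    (Fin.modNat (Fin.divNat (m := n * n) (n := 1) ⟨t, _⟩)))).testBit _ = _
  rw [e1, e2]
  exact bit_zmod _

theorem ws_one (n l : ℕ) (f : Word → Word → Bool) :
    (show Set (Gr n) from WS n 1 l f) = parSet f n l := by
  apply Set.ext
  intro A
  show Od l (fun c => f (enc2 (n := n) 1 (show Matrix (Fin n) (Fin n) (ZMod (2 ^ 1)) from A.1)) c =
    true) ↔ Odd {c : Word | c.length = l ∧ f (enc A.1) c = true}.ncard
  rw [enc_one]
  exact Iff.rfl

theorem one (h1 : ActStmt) (h2 : AmcStmt) (_h3 : WoeStmt) : OneStmt := by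
  refine ⟨fun f n l C => decide (C.length = LA n 1 l) && valA f n 1 l C, fun n l => LA n 1 l,
    ?_, ?_, ?_, ?_, ?_⟩
  · intro f n l C h
    have h3 := (Bool.and_eq_true _ _ ▸ h : _ ∧ _).1
    exact of_decide_eq_true h3
  · intro f n l hH
    have hH' : Heap (WS n 1 l f) := by
      have : Heap (show Set (Gr n) from WS n 1 l f) := by rw [ws_one]; exact hH
      exact this
    have h4 := h1 n 1 l f le_rfl hH'
    have e1 : {C : Word | (decide (C.length = LA n 1 l) && valA f n 1 l C) = true} =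
        {c : Word | c.length = LA n 1 l ∧ valA f n 1 l c = true} := by
      apply Set.ext
      intro C
      simp
    rw [e1]
    have h5 : (WS n 1 l f).Nonempty ↔ (parSet f n l).Nonempty := by
      rw [← ws_one n l f]
    exact h4.trans h5
  · intro G hG m X Y Z C n l hX hY hZ hC hn hL
    have k : ∀ i : ℕ, FPN (C := K) m (fun _ => i) := fun i => FPN.const i
    have hLA : FPN m (fun ρ => LA (n ρ) 1 (l ρ)) := by
      unfold LA hl fl cl
      have hN := FPN.mul hn hn
      have hM := FPN.mul (k 1) hN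
      have h0 := FPN.add hN (FPN.mul hN (k 1))
      exact FPN.add h0 (FPN.add h0 (FPN.add (FPN.add (FPN.mul (k 2) hM)
        (FPN.mul (k 2) (FPN.mul hM hM))) (FPN.add hL (FPN.add (FPN.mul hM hL) (FPN.mul hM hL)))))
    exact FPB.and (FPB.eqN (FPW.len hC) hLA)
      (h2 G hG m X Y Z C n (fun _ => 1) l hX hY hZ hC hn (k 1) hL)
  · intro m n l hn hL
    have k : ∀ i : ℕ, FPN (C := K) m (fun _ => i) := fun i => FPN.const i
    unfold LA hl fl cl
    have hN := FPN.mul hn hn
    have hM := FPN.mul (k 1) hN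
    have h0 := FPN.add hN (FPN.mul hN (k 1))
    exact FPN.add h0 (FPN.add h0 (FPN.add (FPN.add (FPN.mul (k 2) hM)
      (FPN.mul (k 2) (FPN.mul hM hM))) (FPN.add hL (FPN.add (FPN.mul hM hL) (FPN.mul hM hL)))))
  · intro n l
    refine ⟨(n * n + n * n * 1) + ((n * n + n * n * 1) + ((2 * (1 * (n * n)) +
      2 * ((1 * (n * n)) * (1 * (n * n)))) + (l + ((1 * (n * n)) * l + (1 * (n * n)) * l)))), ?_⟩
    intro t
    apply le_of_eq
    unfold LA hl fl cl
    simp only [Polynomial.eval_add, Polynomial.eval_mul, Polynomial.eval_one,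
      Polynomial.eval_ofNat]

end Pool.Agent.COSB.H50
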